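import Pool.Agent.Lib.MP_3b0e0c_al.V.Nine

namespace Pool.Agent.Results.MP_3b0e0c_al.ConjNine

open Pool.Agent.Lib.MP_3b0e0c_al

/-- A 2-group in which any two conjugate elements generate a nilpotent subgroup of class at most 9
is locally finite. -/
theorem result (G : Type) [Group G] (h2 : ∀ g : G, ∃ k : ℕ, orderOf g = 2 ^ k)
    (h : ∀ x g : G, (Subgroup.closure ({x, g * x * g⁻¹} : Set G)).lowerCentralSeries 9 = ⊥) :
    ∀ s : Finset G, ((Subgroup.closure (s : Set G) : Subgroup G) : Set G).Finite := by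
  have hp : IsPGroup 2 G := fun g => (h2 g).imp fun k hk => by rw [← hk, pow_orderOf_eq_one]
  exact fun s => V.LF_of_conj9 hp h s s.finite_toSet (Set.subset_univ _)

end Pool.Agent.Results.MP_3b0e0c_al.ConjNine
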