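import Pool.Agent.Lib.MP_3b0e0c_al.D.Main

namespace Pool.Agent.Results.MP_3b0e0c_al.NoD16

open Pool.Agent.Lib.MP_3b0e0c_al

/-- A 2-group in which no finite subgroup maps onto the dihedral group of order 16 is locally
finite. -/
theorem result (G : Type) [Group G] (h2 : ∀ g : G, ∃ k : ℕ, orderOf g = 2 ^ k)
    (h : ∀ H : Subgroup G, Finite H → ∀ f : H →* DihedralGroup 8, ¬ Function.Surjective f) :
    ∀ s : Finset G, ((Subgroup.closure (s : Set G) : Subgroup G) : Set G).Finite := by
  have hp : IsPGroup 2 G := fun g => (h2 g).imp fun k hk => by rw [← hk, pow_orderOf_eq_one]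
  exact fun s => D.LF_of_ND hp h s s.finite_toSet (Set.subset_univ _)

end Pool.Agent.Results.MP_3b0e0c_al.NoD16
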