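import Pool.Agent.Lib.MP_3b0e0c_al.Y.Glue
import Pool.Agent.Lib.MP_3b0e0c_al.Y.CertB

namespace Pool.Agent.Results.MP_3b0e0c_al.SixEngel

open Pool.Agent.Lib.MP_3b0e0c_al
open scoped commutatorElement

/-- A 6-Engel 2-group in which any two conjugate elements generate a finite subgroup is locally
finite. -/
theorem result (G : Type) [Group G] (h2 : ∀ g : G, ∃ k : ℕ, orderOf g = 2 ^ k)
    (hf : ∀ x g : G, ((Subgroup.closure ({x, g * x * g⁻¹} : Set G) : Subgroup G) : Set G).Finite)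
    (he : ∀ a b : G, ⁅⁅⁅⁅⁅⁅a, b⁆, b⁆, b⁆, b⁆, b⁆, b⁆ = 1) :
    ∀ s : Finset G, ((Subgroup.closure (s : Set G) : Subgroup G) : Set G).Finite := by
  have hp : IsPGroup 2 G := fun g => (h2 g).imp fun k hk => by rw [← hk, pow_orderOf_eq_one]
  exact fun s => Y.LF_six_conj (Y.spec_of Y.okB) hp hf he s s.finite_toSet (Set.subset_univ _)

end Pool.Agent.Results.MP_3b0e0c_al.SixEngel
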